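import Pool.Agent.H922IN.Out

/-!
# One congruence between numbers of characters decides Q1
-/

set_option autoImplicit false

noncomputable section

namespace Pool.Agent.Results.MP_5ecade_al.OneCongruenceDecides

/-- `χ` is the character of an irreducible complex representation of `G`. -/
def IsIrr {G : Type} [Group G] (χ : G → ℂ) : Prop :=
  ∃ (V : Type) (_ : AddCommGroup V) (_ : Module ℂ V) (_ : FiniteDimensional ℂ V)
    (ρ : Representation ℂ G V), ρ.IsIrreducible ∧ χ = ρ.character

/-- The normaliser of a Sylow subgroup. -/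
abbrev Nor {p : ℕ} {G : Type} [Group G] (P : Sylow p G) : Subgroup G :=
  Subgroup.normalizer ((P : Subgroup G) : Set G)

/-- The irreducible characters of `G` of degree prime to `p`. -/
def IrrP (p : ℕ) (G : Type) [Group G] : Type :=
  {χ : G → ℂ // IsIrr χ ∧ ∃ n : ℕ, χ 1 = n ∧ ¬ p ∣ n}

/-- The complex numbers `x`, `y` are natural numbers with `x ≡ y` or `x ≡ -y` modulo `p`. -/
def CongrSign (p : ℕ) (x y : ℂ) : Prop :=
  ∃ m n : ℕ, x = m ∧ y = n ∧ ((m : ZMod p) = n ∨ (m : ZMod p) = -n)

/-- Q1 for `G` and `P`: there is a bijection `χ ↦ χ*` from the irreducible characters of `G` of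
degree prime to `p` onto those of the normaliser of `P` with `χ(1) ≡ ± χ*(1)` modulo `p`. -/
def Holds {p : ℕ} {G : Type} [Group G] (P : Sylow p G) : Prop :=
  ∃ f : IrrP p G ≃ IrrP p (Nor P), ∀ χ, CongrSign p (χ.1 1) ((f χ).1 1)

/-- The Galois conjugates of a complex function. -/
def conjugates {G : Type} (χ : G → ℂ) : Set (G → ℂ) :=
  {ψ | ∃ σ : ℂ ≃+* ℂ, ψ = fun g => σ (χ g)}

/-- The number of irreducible characters `χ` of `G` with `χ(1) ≡ ± a` modulo `p` such that the
number of Galois conjugates of `χ`, that is, the degree of the field of values of `χ`, is not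
divisible by `ℓ`. -/
def num (p ℓ : ℕ) (a : ZMod p) (G : Type) [Group G] : ℕ :=
  Nat.card {χ : G → ℂ // IsIrr χ ∧
    (∃ n : ℕ, χ 1 = n ∧ ((n : ZMod p) = a ∨ (n : ZMod p) = -a)) ∧ ¬ ℓ ∣ Nat.card (conjugates χ)}

/-- The number of irreducible characters `χ` of `G` whose degree is, up to sign, congruent modulo
`p` to `b` times an element of `ℓ`-power order. -/
def numCoset (p ℓ : ℕ) (b : ZMod p) (G : Type) [Group G] : ℕ :=
  Nat.card {χ : G → ℂ // IsIrr χ ∧ ∃ n k : ℕ, χ 1 = n ∧
    ((n : ZMod p) ^ ℓ ^ k = b ^ ℓ ^ k ∨ (n : ZMod p) ^ ℓ ^ k = -(b ^ ℓ ^ k))}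

/-- For all finite groups `G` and Sylow `p`-subgroups `P`, the numbers of characters of `G` and of
the normaliser of `P` with degree `± a` modulo `p` whose field of values has degree prime to `ℓ`
are congruent modulo `ℓ`. -/
def Congruence (p ℓ : ℕ) (a : ZMod p) : Prop :=
  ∀ (G : Type) [Group G] [Finite G] (P : Sylow p G), num p ℓ a G ≡ num p ℓ a (Nor P) [MOD ℓ]

/-- Let `p` and `ℓ` be different primes and `a` a nonzero residue class modulo `p`. If
`Congruence p ℓ a` holds, then the McKay equality holds for all finite groups for the prime `p`, in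
the refined form with the cosets of the classes of `ℓ`-power order. If `ℓ` does not divide
`(p - 1) / 2`, then `Congruence p ℓ a` holds if and only if Q1 is true for the prime `p`. -/
theorem result (p ℓ : ℕ) [Fact p.Prime] [Fact ℓ.Prime] (hne : ℓ ≠ p) (a : ZMod p) (ha : a ≠ 0) :
    (Congruence p ℓ a → ∀ (G : Type) [Group G] [Finite G] (P : Sylow p G),
      Nat.card (IrrP p G) = Nat.card (IrrP p (Nor P)) ∧
        ∀ b : ZMod p, b ≠ 0 → numCoset p ℓ b G = numCoset p ℓ b (Nor P)) ∧
    (¬ ℓ ∣ (p - 1) / 2 →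
      (Congruence p ℓ a ↔ ∀ (G : Type) [Group G] [Finite G] (P : Sylow p G), Holds P)) := by
  constructor
  · intro h
    exact Pool.Agent.H922IN.main_any (p := p) (ℓ := ℓ) hne.symm ha fun G _ _ P =>
      (Pool.Agent.H922IN.congr_K ℓ a G P).mpr (h G P)
  · intro hd
    have hp2 : p ≠ 2 := by
      rintro rfl
      exact hd (by simp)
    refine Iff.trans ?_ (Pool.Agent.H922IN.main_congr hp2 hne.symm hd ha).symm
    exact forall_congr' fun G => forall_congr' fun _ => forall_congr' fun _ => forall_congr' fun P =>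
      (Pool.Agent.H922IN.congr_K ℓ a G P).symm

end Pool.Agent.Results.MP_5ecade_al.OneCongruenceDecides
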