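import Pool.Agent.H922IN.Out

/-!
# One inequality and the McKay equality, or one inequality and one congruence, decide Q1
-/

set_option autoImplicit false

noncomputable section

namespace Pool.Agent.Results.MP_5ecade_al.OneInequalityDecides

/-- `χ` is the character of an irreducible complex representation of `G`. -/
def IsIrr {G : Type} [Group G] (χ : G → ℂ) : Prop :=
  ∃ (V : Type) (_ : AddCommGroup V) (_ : Module ℂ V) (_ : FiniteDimensional ℂ V)
    (ρ : Representation ℂ G V), ρ.IsIrreducible ∧ χ = ρ.character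

/-- The normaliser of a Sylow subgroup. -/
abbrev Nor {p : ℕ} {G : Type} [Group G] (P : Sylow p G) : Subgroup G :=
  Subgroup.normalizer ((P : Subgroup G) : Set G)

/-- The irreducible characters of `G` of degree prime to `p`. -/
def IrrP (p : ℕ) (G : Type) [Group G] : Type :=
  {χ : G → ℂ // IsIrr χ ∧ ∃ n : ℕ, χ 1 = n ∧ ¬ p ∣ n}

/-- The complex numbers `x`, `y` are natural numbers with `x ≡ y` or `x ≡ -y` modulo `p`. -/
def CongrSign (p : ℕ) (x y : ℂ) : Prop :=
  ∃ m n : ℕ, x = m ∧ y = n ∧ ((m : ZMod p) = n ∨ (m : ZMod p) = -n)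

/-- Q1 for `G` and `P`: there is a bijection `χ ↦ χ*` from the irreducible characters of `G` of
degree prime to `p` onto those of the normaliser of `P` with `χ(1) ≡ ± χ*(1)` modulo `p`. -/
def Holds {p : ℕ} {G : Type} [Group G] (P : Sylow p G) : Prop :=
  ∃ f : IrrP p G ≃ IrrP p (Nor P), ∀ χ, CongrSign p (χ.1 1) ((f χ).1 1)

/-- The number of irreducible characters `χ` of `G` with `χ(1) ≡ ± a` modulo `p`. -/
def num (p : ℕ) (a : ZMod p) (G : Type) [Group G] : ℕ :=
  Nat.card {χ : G → ℂ // IsIrr χ ∧ ∃ n : ℕ, χ 1 = n ∧ ((n : ZMod p) = a ∨ (n : ZMod p) = -a)}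

/-- Q1 for the prime `p`. -/
def Question (p : ℕ) : Prop :=
  ∀ (G : Type) [Group G] [Finite G] (P : Sylow p G), Holds P

/-- The McKay equality for the prime `p`. -/
def McKay (p : ℕ) : Prop :=
  ∀ (G : Type) [Group G] [Finite G] (P : Sylow p G),
    Nat.card (IrrP p G) = Nat.card (IrrP p (Nor P))

/-- For all finite groups `G` and all Sylow `p`-subgroups `P`, at most as many characters of `G` as
of the normaliser of `P` have degree `± a` modulo `p`. -/
def Upper (p : ℕ) (a : ZMod p) : Prop :=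
  ∀ (G : Type) [Group G] [Finite G] (P : Sylow p G), num p a G ≤ num p a (Nor P)

/-- For all finite groups `G` and all Sylow `p`-subgroups `P`, at least as many characters of `G`
as of the normaliser of `P` have degree `± a` modulo `p`. -/
def Lower (p : ℕ) (a : ZMod p) : Prop :=
  ∀ (G : Type) [Group G] [Finite G] (P : Sylow p G), num p a (Nor P) ≤ num p a G

/-- For all finite groups `G` and all Sylow `p`-subgroups `P`, the numbers of characters of `G` and
of the normaliser of `P` with degree `± a` modulo `p` are congruent modulo `ℓ`. -/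
def Congruence (p ℓ : ℕ) (a : ZMod p) : Prop :=
  ∀ (G : Type) [Group G] [Finite G] (P : Sylow p G), num p a G ≡ num p a (Nor P) [MOD ℓ]

/-- Let `p` be a prime and `a` a nonzero residue class modulo `p`. Q1 is true for the prime `p` if
and only if `Upper p a` or `Lower p a` holds, together with the McKay equality or a congruence
modulo one prime `ℓ ≠ p` for the same class `a`. -/
theorem result (p : ℕ) [Fact p.Prime] (a : ZMod p) (ha : a ≠ 0) :
    (Question p ↔ McKay p ∧ Upper p a) ∧ (Question p ↔ McKay p ∧ Lower p a) ∧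
      ∀ ℓ : ℕ, ℓ.Prime → ℓ ≠ p →
        (Question p ↔ Congruence p ℓ a ∧ Upper p a) ∧
        (Question p ↔ Congruence p ℓ a ∧ Lower p a) := by
  have e1 : Question p → McKay p := fun h G _ _ P => Pool.Agent.H922IN.bij_card (h G P)
  have e2 : Question p → ∀ (G : Type) [Group G] [Finite G] (P : Sylow p G),
      num p a G = num p a (Nor P) := fun h G _ _ P => Pool.Agent.H922IN.bij_Mn (h G P) ha
  have e3 : McKay p → (Upper p a ∨ Lower p a) → Question p := fun h1 h2 G _ _ P =>
    Pool.Agent.H922IN.main_le ha h1 h2 G P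
  have e4 : ∀ ℓ : ℕ, ℓ.Prime → ℓ ≠ p → Congruence p ℓ a → McKay p := by
    intro ℓ hl hne h G _ _ P
    have : Fact ℓ.Prime := ⟨hl⟩
    exact (Pool.Agent.H922IN.main_any (p := p) (ℓ := ℓ) hne.symm ha h G P).1
  refine ⟨⟨fun h => ⟨e1 h, fun G _ _ P => (e2 h G P).le⟩, fun h => e3 h.1 (Or.inl h.2)⟩,
    ⟨fun h => ⟨e1 h, fun G _ _ P => (e2 h G P).ge⟩, fun h => e3 h.1 (Or.inr h.2)⟩,
    fun ℓ hl hne => ⟨⟨fun h => ⟨fun G _ _ P => ?_, fun G _ _ P => (e2 h G P).le⟩,
      fun h => e3 (e4 ℓ hl hne h.1) (Or.inl h.2)⟩,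
      ⟨fun h => ⟨fun G _ _ P => ?_, fun G _ _ P => (e2 h G P).ge⟩,
      fun h => e3 (e4 ℓ hl hne h.1) (Or.inr h.2)⟩⟩⟩
  · rw [e2 h G P]
  · rw [e2 h G P]

end Pool.Agent.Results.MP_5ecade_al.OneInequalityDecides
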