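import Pool.Agent.H922IN.Out

/-!
# A criterion for a single group by congruences for iterated wreath products
-/

set_option autoImplicit false

noncomputable section

namespace Pool.Agent.Results.MP_5ecade_al.TowerCriterion

open Pool.Agent.H922IN (WN)

/-- `χ` is the character of an irreducible complex representation of `G`. -/
def IsIrr {G : Type} [Group G] (χ : G → ℂ) : Prop :=
  ∃ (V : Type) (_ : AddCommGroup V) (_ : Module ℂ V) (_ : FiniteDimensional ℂ V)
    (ρ : Representation ℂ G V), ρ.IsIrreducible ∧ χ = ρ.character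

/-- The normaliser of a Sylow subgroup. -/
abbrev Nor {p : ℕ} {G : Type} [Group G] (P : Sylow p G) : Subgroup G :=
  Subgroup.normalizer ((P : Subgroup G) : Set G)

/-- The irreducible characters of `G` of degree prime to `p`. -/
def IrrP (p : ℕ) (G : Type) [Group G] : Type :=
  {χ : G → ℂ // IsIrr χ ∧ ∃ n : ℕ, χ 1 = n ∧ ¬ p ∣ n}

/-- The complex numbers `x`, `y` are natural numbers with `x ≡ y` or `x ≡ -y` modulo `p`. -/
def CongrSign (p : ℕ) (x y : ℂ) : Prop :=
  ∃ m n : ℕ, x = m ∧ y = n ∧ ((m : ZMod p) = n ∨ (m : ZMod p) = -n)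

/-- Q1 for `G` and `P`: there is a bijection `χ ↦ χ*` from the irreducible characters of `G` of
degree prime to `p` onto those of the normaliser of `P` with `χ(1) ≡ ± χ*(1)` modulo `p`. -/
def Holds {p : ℕ} {G : Type} [Group G] (P : Sylow p G) : Prop :=
  ∃ f : IrrP p G ≃ IrrP p (Nor P), ∀ χ, CongrSign p (χ.1 1) ((f χ).1 1)

/-- The Galois conjugates of a complex function. -/
def conjugates {G : Type} (χ : G → ℂ) : Set (G → ℂ) :=
  {ψ | ∃ σ : ℂ ≃+* ℂ, ψ = fun g => σ (χ g)}

/-- The number of irreducible characters `χ` of `G` with `χ(1) ≡ ± a` modulo `p` such that the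
number of Galois conjugates of `χ`, that is, the degree of the field of values of `χ`, is not
divisible by `ℓ`. -/
def num (p ℓ : ℕ) (a : ZMod p) (G : Type) [Group G] : ℕ :=
  Nat.card {χ : G → ℂ // IsIrr χ ∧
    (∃ n : ℕ, χ 1 = n ∧ ((n : ZMod p) = a ∨ (n : ZMod p) = -a)) ∧ ¬ ℓ ∣ Nat.card (conjugates χ)}

/-- Let `p` and `ℓ` be different primes such that `ℓ` does not divide `(p - 1) / 2`. Let `G` be a
finite group and `P` a Sylow `p`-subgroup of `G`. Then Q1 is true for `G` and `P` if and only if,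
for every `j` with `ℓ ^ j ≤ |G|` and every nonzero class `b` modulo `p`, the iterated wreath product
`W = (⋯(G ≀ C_ℓ) ≀ ⋯) ≀ C_ℓ` with `j` factors `C_ℓ` and the normaliser of a Sylow `p`-subgroup of
`W` have, modulo `ℓ`, the same number of irreducible characters with degree `± b` modulo `p` and
field of values of degree prime to `ℓ`. -/
theorem result (p ℓ : ℕ) [Fact p.Prime] [Fact ℓ.Prime] (hne : ℓ ≠ p) (hd : ¬ ℓ ∣ (p - 1) / 2)
    (G : Type) [Group G] [Finite G] (P : Sylow p G) :
    Holds P ↔ ∀ j : ℕ, ℓ ^ j ≤ Nat.card G → ∀ (Q : Sylow p (WN ℓ j G)) (b : ZMod p), b ≠ 0 →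
      num p ℓ b (WN ℓ j G) ≡ num p ℓ b (Nor Q) [MOD ℓ] := by
  have hp2 : p ≠ 2 := by
    rintro rfl
    exact hd (by simp)
  exact Pool.Agent.H922IN.main_single hp2 hne.symm hd G P

end Pool.Agent.Results.MP_5ecade_al.TowerCriterion
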